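import Mathlib

set_option autoImplicit false

namespace Pool.Agent.Results.MP_e1e5e2_ag.EmbeddedPrime

open MvPolynomial

universe u

/-- The d-th Lovasz-Saks-Schrijver ideal of a simple graph on n vertices. -/
noncomputable def LSS (k : Type u) [Field k] (d n : ℕ) (G : SimpleGraph (Fin n)) :
    Ideal (MvPolynomial (Fin d × Fin n) k) :=
  Ideal.span {f | ∃ j l : Fin n, G.Adj j l ∧ f = ∑ i : Fin d, X (i, j) * X (i, l)}

def dot {R : Type*} [CommRing R] (a b : Fin 3 → R) : R := a 0 * b 0 + a 1 * b 1 + a 2 * b 2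

theorem dot_comm {R : Type*} [CommRing R] (a b : Fin 3 → R) : dot a b = dot b a := by
  unfold dot; ring

theorem frame {R : Type*} [CommRing R] (a b e u w : Fin 3 → R) (hab : dot a b = 0)
    (hae : dot a e = 0) (hbe : dot b e = 0) :
    dot a a * dot b b * dot e e * dot u w = dot b b * dot e e * dot a u * dot a w +
      dot a a * dot e e * dot b u * dot b w + dot a a * dot b b * dot e u * dot e w := by
  have key : (dot a a * dot b b * dot e e + 2 * dot a b * dot b e * dot a e
      - dot a a * dot b e ^ 2 - dot b b * dot a e ^ 2 - dot e e * dot a b ^ 2) * dot u w =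
      (dot b b * dot e e - dot b e ^ 2) * dot a u * dot a w +
      (dot a a * dot e e - dot a e ^ 2) * dot b u * dot b w +
      (dot a a * dot b b - dot a b ^ 2) * dot e u * dot e w +
      (dot a e * dot b e - dot a b * dot e e) * (dot a u * dot b w + dot b u * dot a w) +
      (dot a b * dot b e - dot a e * dot b b) * (dot a u * dot e w + dot e u * dot a w) +
      (dot a b * dot a e - dot b e * dot a a) * (dot b u * dot e w + dot e u * dot b w) := by
    unfold dot; ring
  rw [hab, hae, hbe] at key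
  linear_combination key

def edges : List (Fin 8 × Fin 8) :=
  [(0, 1), (0, 2), (1, 2), (0, 5), (1, 6), (1, 7), (5, 6), (5, 7), (2, 3), (4, 5), (4, 7), (4, 3)]

def graph : SimpleGraph (Fin 8) := SimpleGraph.fromRel (fun j l => (j, l) ∈ edges)

def gg {R : Type*} [CommRing R] (v : Fin 8 → Fin 3 → R) : R :=
  dot (v 0) (v 0) * dot (v 1) (v 1) * dot (v 2) (v 2) * dot (v 2) (v 4) * dot (v 1) (v 3) *
    dot (v 0) (v 7)

theorem alg {R : Type*} [CommRing R] (v : Fin 8 → Fin 3 → R)
    (h : ∀ q ∈ edges, dot (v q.1) (v q.2) = 0) :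
    gg v * dot (v 2) (v 6) * dot (v 2) (v 5) = 0 ∧ gg v * dot (v 2) (v 5) * dot (v 2) (v 5) = 0 := by
  have h01 := h (0, 1) (by decide)
  have h02 := h (0, 2) (by decide)
  have h12 := h (1, 2) (by decide)
  have h05 := h (0, 5) (by decide)
  have h16 := h (1, 6) (by decide)
  have h17 := h (1, 7) (by decide)
  have h56 := h (5, 6) (by decide)
  have h57 := h (5, 7) (by decide)
  have h23 := h (2, 3) (by decide)
  have h45 := h (4, 5) (by decide)
  have h47 := h (4, 7) (by decide)
  have h43 := h (4, 3) (by decide)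
  simp only at h01 h02 h12 h05 h16 h17 h56 h57 h23 h45 h47 h43
  have f1 := frame _ _ _ (v 5) (v 6) h01 h02 h12
  have f2 := frame _ _ _ (v 5) (v 7) h01 h02 h12
  have f3 := frame _ _ _ (v 4) (v 5) h01 h02 h12
  have f4 := frame _ _ _ (v 4) (v 7) h01 h02 h12
  have f5 := frame _ _ _ (v 4) (v 3) h01 h02 h12
  rw [h56, h05, h16] at f1
  rw [h57, h05, h17] at f2
  rw [h45, h05] at f3
  rw [h47, h17] at f4
  rw [h43, h23] at f5
  unfold gg
  generalize dot (v 0) (v 0) = A at *
  generalize dot (v 1) (v 1) = B at *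
  generalize dot (v 2) (v 2) = E at *
  generalize dot (v 2) (v 5) = x at *
  generalize dot (v 2) (v 6) = y at *
  generalize dot (v 2) (v 7) = y' at *
  generalize dot (v 2) (v 4) = em at *
  generalize dot (v 0) (v 4) = am at *
  generalize dot (v 1) (v 4) = bm at *
  generalize dot (v 0) (v 3) = ap at *
  generalize dot (v 1) (v 3) = bp at *
  generalize dot (v 1) (v 5) = bu at *
  generalize dot (v 0) (v 7) = aw at *
  generalize dot (v 0) (v 6) = aw' at *
  constructor
  · linear_combination (-(E * em * bp * aw)) * f1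
  · linear_combination E * (x * bu * aw * f5 - x * ap * bu * f4 - x * bp * aw * f3
      + em * ap * bu * f2)

theorem le_ker {k : Type u} [Field k] {R : Type*} [CommRing R]
    (φ : MvPolynomial (Fin 3 × Fin 8) k →+* R)
    (h : ∀ q ∈ edges, dot (fun i => φ (X (i, q.1))) (fun i => φ (X (i, q.2))) = 0) :
    LSS k 3 8 graph ≤ RingHom.ker φ := by
  rw [LSS, Ideal.span_le]
  rintro _ ⟨j, l, hjl, rfl⟩
  rw [SetLike.mem_coe, RingHom.mem_ker, Fin.sum_univ_three]
  simp only [map_add, map_mul]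
  rw [graph, SimpleGraph.fromRel_adj] at hjl
  rcases hjl.2 with h1 | h1
  · have := h (j, l) h1
    unfold dot at this
    exact this
  · have := h (l, j) h1
    rw [dot_comm] at this
    unfold dot at this
    exact this

theorem mem_LSS {k : Type u} [Field k] (q : Fin 8 × Fin 8) (hq : q ∈ edges) :
    dot (fun i => (X (i, q.1) : MvPolynomial (Fin 3 × Fin 8) k)) (fun i => X (i, q.2)) ∈
      LSS k 3 8 graph := by
  refine Ideal.subset_span ⟨q.1, q.2, ⟨?_, Or.inl hq⟩, by rw [Fin.sum_univ_three]; rfl⟩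
  revert q
  decide

theorem map_dot {R R' : Type*} [CommRing R] [CommRing R'] (φ : R →+* R') (a b : Fin 3 → R) :
    φ (dot a b) = dot (fun i => φ (a i)) (fun i => φ (b i)) := by
  simp [dot]

theorem map_gg {R R' : Type*} [CommRing R] [CommRing R'] (φ : R →+* R') (v : Fin 8 → Fin 3 → R) :
    φ (gg v) = gg (fun j i => φ (v j i)) := by
  simp only [gg, map_mul, map_dot]

theorem deform {k : Type u} [Field k] {D : Type u} [CommRing D] [IsDomain D]
    (π : MvPolynomial (Fin 3 × Fin 8) k →+* D) (hIP : LSS k 3 8 graph ≤ RingHom.ker π)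
    (hxP : π (dot (fun i => X (i, 2)) (fun i => X (i, 5))) = 0)
    (hyP : π (dot (fun i => X (i, 2)) (fun i => X (i, 6))) = 0)
    (hEP : π (dot (fun i => X (i, 2)) (fun i => X (i, 2))) ≠ 0) :
    ∃ Q0 : Ideal (MvPolynomial (Fin 3 × Fin 8) k), Q0.IsPrime ∧ LSS k 3 8 graph ≤ Q0 ∧
      Q0 ≤ RingHom.ker π ∧ dot (fun i => X (i, 2)) (fun i => X (i, 6)) ∉ Q0 := by
  let V : Fin 8 → Fin 3 → MvPolynomial (Fin 3 × Fin 8) k := fun j i => X (i, j)
  let W : Fin 8 → Fin 3 → Polynomial D := fun j i =>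
    Polynomial.C (π (V j i)) + if j = 6 then Polynomial.X * Polynomial.C (π (V 2 i)) else 0
  obtain ⟨ψ, hψX, hψC⟩ : ∃ ψ : MvPolynomial (Fin 3 × Fin 8) k →+* Polynomial D,
      (∀ i j, ψ (X (i, j)) = W j i) ∧ ∀ r, ψ (C r) = Polynomial.C (π (C r)) :=
    ⟨eval₂Hom (Polynomial.C.comp (π.comp C)) (fun q => W q.2 q.1), fun i j => by simp,
      fun r => by simp⟩
  have hd : ∀ a b : Fin 8, a ≠ 6 → dot (W a) (W b) = Polynomial.C (π (dot (V a) (V b))) +
      if b = 6 then Polynomial.X * Polynomial.C (π (dot (V a) (V 2))) else 0 := by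
    intro a b ha
    by_cases hb : b = 6
    · simp only [W, dot, ha, hb, if_true, if_false, map_add, map_mul]
      ring
    · simp only [W, dot, ha, hb, if_false, map_add, map_mul]
      ring
  have he : ∀ q ∈ edges, π (dot (V q.1) (V q.2)) = 0 := fun q hq => hIP (mem_LSS q hq)
  refine ⟨RingHom.ker ψ, RingHom.ker_isPrime ψ, le_ker ψ ?_, ?_, ?_⟩
  · intro q hq
    simp only [hψX]
    have h1 : q.1 ≠ 6 := by revert q; decide
    have h2 : q.2 = 6 → q.1 = 1 ∨ q.1 = 5 := by revert q; decide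
    rw [hd q.1 q.2 h1, he q hq, map_zero, zero_add]
    split_ifs with h3
    · rcases h2 h3 with h4 | h4
      · rw [h4, he (1, 2) (by decide), map_zero, mul_zero]
      · rw [h4, dot_comm, hxP, map_zero, mul_zero]
    · rfl
  · have : (Polynomial.evalRingHom 0).comp ψ = π := by
      refine MvPolynomial.ringHom_ext (fun r => ?_) (fun q => ?_)
      · simp [hψC]
      · obtain ⟨i, j⟩ := q
        simp only [RingHom.comp_apply, hψX, W]
        split_ifs <;> simp [V]
    intro r hr
    rw [RingHom.mem_ker] at hr ⊢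
    rw [← this, RingHom.comp_apply, hr, map_zero]
  · intro h
    rw [RingHom.mem_ker, map_dot] at h
    simp only [hψX] at h
    rw [hd 2 6 (by decide), hyP, map_zero, zero_add, if_pos rfl, mul_eq_zero] at h
    rcases h with h | h
    · exact Polynomial.X_ne_zero h
    · exact hEP (Polynomial.C_eq_zero.1 h)

theorem assoc_of_min {S : Type u} [CommRing S] [IsNoetherianRing S] (I P : Ideal S) (x : S)
    (h : P ∈ (I.colon {x}).minimalPrimes) : P ∈ associatedPrimes S (S ⧸ I) := by
  obtain ⟨y, hy⟩ := Submodule.exists_eq_colon_of_mem_minimalPrimes h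
  rw [AssociatedPrimes.mem_iff, isAssociatedPrime_iff]
  refine ⟨h.1.1, Ideal.Quotient.mk I y, ?_⟩
  rw [hy]
  ext r
  rw [Submodule.mem_colon_singleton, Submodule.mem_colon_singleton, Submodule.mem_bot,
    ← Ideal.Quotient.eq_zero_iff_mem]
  rfl

open DualNumber in
noncomputable def pt (k : Type u) [Field k] : Fin 8 → Fin 3 → DualNumber k :=
  ![![0, 0, 1], ![0, 1, 0], ![1, 0, 0], ![0, 1, 1], ![1, -ε, ε], ![ε, 1, 0], ![0, 0, 1],
    ![-ε, 0, 1]]

theorem result (k : Type u) [Field k] : ∃ G : SimpleGraph (Fin 8),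
    ∃ P ∈ associatedPrimes (MvPolynomial (Fin 3 × Fin 8) k)
        (MvPolynomial (Fin 3 × Fin 8) k ⧸ LSS k 3 8 G),
      ∃ Q ∈ associatedPrimes (MvPolynomial (Fin 3 × Fin 8) k)
        (MvPolynomial (Fin 3 × Fin 8) k ⧸ LSS k 3 8 G), Q < P := by
  refine ⟨graph, ?_⟩
  set I := LSS k 3 8 graph with hI
  let V : Fin 8 → Fin 3 → MvPolynomial (Fin 3 × Fin 8) k := fun j i => X (i, j)
  let x := dot (V 2) (V 5)
  let y := dot (V 2) (V 6)
  let g := gg V
  have hq := alg (fun j i => Ideal.Quotient.mk I (V j i)) (fun q hq => by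
    rw [← map_dot, Ideal.Quotient.eq_zero_iff_mem]; exact mem_LSS q hq)
  rw [← map_gg, ← map_dot, ← map_dot, ← map_mul, ← map_mul, ← map_mul, ← map_mul,
    Ideal.Quotient.eq_zero_iff_mem, Ideal.Quotient.eq_zero_iff_mem] at hq
  obtain ⟨φ, hφX⟩ : ∃ φ : MvPolynomial (Fin 3 × Fin 8) k →+* DualNumber k,
      ∀ i j, φ (X (i, j)) = pt k j i :=
    ⟨(aeval (fun q : Fin 3 × Fin 8 => pt k q.2 q.1)).toRingHom, fun i j => by simp⟩
  have hφI : I ≤ RingHom.ker φ := by
    refine le_ker φ ?_
    intro q hq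
    simp only [hφX]
    simp only [edges, List.mem_cons, List.not_mem_nil, or_false] at hq
    rcases hq with rfl | rfl | rfl | rfl | rfl | rfl | rfl | rfl | rfl | rfl | rfl | rfl <;>
      simp [dot, pt]
  have hφx : φ x = DualNumber.eps := by
    simp only [x, map_dot, V, hφX]; simp [dot, pt]
  have hφg : φ g = 1 := by
    simp only [g, map_gg, V, hφX]; simp [gg, dot, pt]
  let φ0 : MvPolynomial (Fin 3 × Fin 8) k →+* k :=
    (TrivSqZeroExt.fstHom k k k).toRingHom.comp φ
  have hp0 : (RingHom.ker φ0).IsPrime := RingHom.ker_isPrime φ0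
  have hc : I.colon {x} ≤ RingHom.ker φ0 := by
    intro r hr
    rw [Submodule.mem_colon_singleton] at hr
    have := hφI hr
    rw [RingHom.mem_ker, smul_eq_mul, map_mul, hφx] at this
    have h2 := congrArg TrivSqZeroExt.snd this
    rw [RingHom.mem_ker]
    simpa [φ0] using h2
  obtain ⟨P, hP, hP0⟩ := Ideal.exists_minimalPrimes_le hc
  have hPp : P.IsPrime := hP.1.1
  have hgP : g ∉ P := fun h => by
    have := hP0 h
    rw [RingHom.mem_ker] at this
    simp [φ0, hφg] at this
  have hxP : x ∈ P := by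
    have : g * x ∈ P := hP.1.2 (by rw [Submodule.mem_colon_singleton]; exact hq.2)
    exact (hPp.mem_or_mem this).resolve_left hgP
  have hyP : y ∈ P := by
    have : g * y ∈ P := hP.1.2 (by rw [Submodule.mem_colon_singleton]; exact hq.1)
    exact (hPp.mem_or_mem this).resolve_left hgP
  have hIP : I ≤ P := fun r hr => hP.1.2 (by
    rw [Submodule.mem_colon_singleton]; exact I.mul_mem_right _ hr)
  have hEP : dot (V 2) (V 2) ∉ P := fun h => hgP (by
    simp only [g, gg]
    exact P.mul_mem_right _ (P.mul_mem_right _ (P.mul_mem_right _ (P.mul_mem_left _ h))))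
  obtain ⟨Q0, hQ0, hψI, hψP, hyQ⟩ := deform (Ideal.Quotient.mk P) (by rw [Ideal.mk_ker]; exact hIP)
    (Ideal.Quotient.eq_zero_iff_mem.2 hxP) (Ideal.Quotient.eq_zero_iff_mem.2 hyP)
    (fun h => hEP (Ideal.Quotient.eq_zero_iff_mem.1 h))
  rw [Ideal.mk_ker] at hψP
  have hc1 : I.colon {1} ≤ Q0 := fun r hr => by
    rw [Submodule.mem_colon_singleton, smul_eq_mul, mul_one] at hr
    exact hψI hr
  obtain ⟨Q, hQ, hQ1⟩ := Ideal.exists_minimalPrimes_le hc1
  refine ⟨P, assoc_of_min I P x hP, Q, assoc_of_min I Q 1 hQ, ?_⟩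
  exact lt_of_le_of_ne (hQ1.trans hψP) (fun h => hyQ (hQ1 (h ▸ hyP)))

end Pool.Agent.Results.MP_e1e5e2_ag.EmbeddedPrime
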